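import Pool.Agent.W2helper42.TQ.EmMain
import Pool.Agent.W2helper42.TQ.Graded

/-!
# Finite generation for schemes given by quadratic equations

`H^i(X_et, ℤ^c(n))` is finitely generated for all `i` and all `n < 0` if `X` is given by one
equation of degree at most two in any number of variables over a base of dimension at most one, and
for all `n < -1` if it is given by two such equations over a finite ring; and the same for all
schemes that are obtained from these by cutting and pasting. In general `s + 1` quadratic equations,
in any number of variables, over a base of dimension `e`, are reduced to schemes of dimension at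
most `e + s`.
-/

set_option autoImplicit false

namespace Pool.Agent.Results.MP_c1eb4d_ag.QuadraticEquations

open AlgebraicGeometry CategoryTheory Pool.Agent.W2helper42.TQ

noncomputable section

/-- The closed subscheme `q_0(y) = ... = q_s(y) = 0` of an affine space over `Spec R`. -/
abbrev Zeros {R σ : Type} [CommRing R] {s : ℕ} (q : Fin (s + 1) → MvPolynomial σ R) :
    Scheme.{0} :=
  Sp (MvPolynomial σ R ⧸ Ideal.span (Set.range q))

/-- The class of schemes that is generated by
* the arithmetic schemes of dimension at most `d`;
* the affine schemes `q_0(y) = ... = q_s(y) = 0` where the `q_j` are polynomials of total degree at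
  most two in finitely many variables `y` over a finitely generated ring `R` of Krull dimension at
  most `e`, with `e + s ≤ d` and `s ≤ N`;
under isomorphisms, two out of three for a closed subscheme and its open complement, products with
the affine line, and the passage from `Spec R[t] / (t ^ 2 + b t + c)` to `Spec R`. -/
inductive Quadr (d N : ℕ) : Scheme.{0} → Prop
  | dim (X : Scheme.{0}) : FT 0 X → topologicalKrullDim X ≤ d → Quadr d N X
  | eqs (R σ : Type) [CommRing R] [Finite σ] (e s : ℕ) (q : Fin (s + 1) → MvPolynomial σ R) :
      Fg 0 R → ringKrullDim R ≤ e → e + s ≤ d → s ≤ N → (∀ i, (q i).totalDegree ≤ 2) →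
      Quadr d N (Zeros q)
  | iso (X Y : Scheme.{0}) : FT 0 X → (X ≅ Y) → Quadr d N X → Quadr d N Y
  | closed (Z X U : Scheme.{0}) : Triple Z X U → FT 0 X → Quadr d N X → Quadr d N U → Quadr d N Z
  | total (Z X U : Scheme.{0}) : Triple Z X U → FT 0 X → Quadr d N Z → Quadr d N U → Quadr d N X
  | opened (Z X U : Scheme.{0}) : Triple Z X U → FT 0 X → Quadr d N Z → Quadr d N X → Quadr d N U
  | line (R : Type) [CommRing R] : Fg 0 R → Quadr d N (Sp R) → Quadr d N (Sp (Polynomial R))
  | double (R : Type) [CommRing R] (b c : R) : Fg 0 R → Quadr d N (Db R b c) → Quadr d N (Sp R)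

/-- Let `T` be étale motivic Borel-Moore homology of arithmetic schemes, and let `d` be such that
finite generation is known for all arithmetic schemes of dimension at most `d` and all `n < 0`; this
is no condition if `d ≤ 1`. Then the groups `H^i(X_et, ℤ^c(n))` are finitely generated for all `i`
and all `n < -N`, for all schemes `X` of the class `Quadr d N`. -/
theorem result (T : EtMot) (hT : IsEtMot T) (d : ℕ)
    (hd : 1 < d → ∀ X : Scheme.{0}, FT 0 X → topologicalKrullDim X ≤ d → ∀ i n : ℤ, n < 0 →
      AddGroup.FG (T.H X i n)) (N : ℕ) (X : Scheme.{0}) (hX : Quadr d N X) :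
    ∀ i n : ℤ, n < -(N : ℤ) → AddGroup.FG (T.H X i n) := by
  have hdim : ∀ X : Scheme.{0}, FT 0 X → topologicalKrullDim X ≤ d → FinGen T X 0 := by
    intro X hX hXd i n hn
    rcases lt_or_ge 1 d with h | h
    · exact hd h X hX hXd i n (by simpa using hn)
    · refine hT.curves X hX (hXd.trans ?_) i n (by simpa using hn)
      exact_mod_cast h
  have hG : Graded 0 (fun M => PR 0 (fun X => FinGen T X M)) :=
    { nice := fun M => nice_ring0 (nice_fin hT M) (fun R _ hR h => line_fwd hT hR h)
        (fun R _ b c hR h => double_fin hT b c hR h)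
      mono := fun M R _ h hR => finGen_mono (Nat.le_succ M) (h hR)
      back := fun M R _ hR h _ => line_back hT hR (h (fg_poly hR)) }
  have hI : InDim 0 (PR 0 (fun X => FinGen T X 0)) d := inDim_of (nice_fin hT 0) hdim
  have hn := nice_fin hT N
  change FinGen T X N
  induction hX with
  | dim X h1 h2 => exact finGen_mono (Nat.zero_le N) (hdim X h1 h2)
  | eqs R σ e s q h1 h2 h3 h4 h5 =>
    exact finGen_mono h4 (gquadrics hG hI h1 e h2 s h3 q h5 (fg_quot (fg_mv h1 σ) _))
  | iso X Y h1 e _ ih => exact hn.iso X Y h1 e ih
  | closed Z X U h3 h _ _ ih1 ih2 =>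
    obtain ⟨i, j, h1, h2, h4⟩ := h3
    exact hn.closed Z X U i j h1 h2 h h4 ih1 ih2
  | total Z X U h3 h _ _ ih1 ih2 =>
    obtain ⟨i, j, h1, h2, h4⟩ := h3
    exact hn.total Z X U i j h1 h2 h h4 ih1 ih2
  | opened Z X U h3 h _ _ ih1 ih2 =>
    obtain ⟨i, j, h1, h2, h4⟩ := h3
    exact hn.opened Z X U i j h1 h2 h h4 ih1 ih2
  | line R h1 _ ih => exact line_fwd hT h1 ih
  | double R b c h1 _ ih => exact double_fin hT b c h1 ih

end

end Pool.Agent.Results.MP_c1eb4d_ag.QuadraticEquations
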