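import Pool.Agent.W2helper42.TQ.EmPoint
import Pool.Agent.W2helper42.TQ.Smooth

/-!
# Finite generation for all arithmetic schemes and for smooth affine cubic hypersurfaces

Every affine arithmetic scheme `X` has a smooth affine hypersurface `C` of the form
`y_0 q_0(x) + ... + y_r q_r(x) = 1` over `ℤ`, where every `q_j` is one of the polynomials
`x_a x_b - x_c`, `x_a + x_b - x_c`, `x_a - 1`, such that `H^i(C_et, ℤ^c(n))` is finitely generated if
and only if `H^(i+2r+1)(X_et, ℤ^c(n-r))` is, for all `i` and all `n < 0`.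

It follows that the groups `H^i(X_et, ℤ^c(n))` of every arithmetic scheme `X` are finitely generated
for all `i` and all sufficiently negative `n` if and only if this holds for these hypersurfaces.
-/

set_option autoImplicit false

namespace Pool.Agent.Results.MP_c1eb4d_ag.SmoothCubics

open AlgebraicGeometry CategoryTheory Pool.Agent.W2helper42.TQ

noncomputable section

/-- The polynomials `x_a x_b - x_c`, `x_a + x_b - x_c` and `x_a - 1`. -/
def Simple {m : ℕ} (q : MvPolynomial (Fin m) ℤ) : Prop :=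
  (∃ a b c, q = MvPolynomial.X a * MvPolynomial.X b - MvPolynomial.X c) ∨
    (∃ a b c, q = MvPolynomial.X a + MvPolynomial.X b - MvPolynomial.X c) ∨
    ∃ a, q = MvPolynomial.X a - 1

/-- The polynomial `y_0 q_0(x) + ... + y_r q_r(x) - 1`. -/
def cubic {m r : ℕ} (q : Fin (r + 1) → MvPolynomial (Fin m) ℤ) :
    MvPolynomial (Fin (r + 1)) (MvPolynomial (Fin m) ℤ) :=
  ∑ j, MvPolynomial.C (q j) * MvPolynomial.X j - 1

/-- The ring `ℤ[x_1, ..., x_m, y_0, ..., y_r] / (y_0 q_0(x) + ... + y_r q_r(x) - 1)`. -/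
abbrev Cub {m r : ℕ} (q : Fin (r + 1) → MvPolynomial (Fin m) ℤ) : Type :=
  MvPolynomial (Fin (r + 1)) (MvPolynomial (Fin m) ℤ) ⧸ Ideal.span {cubic q}

theorem cubic_eq {m r : ℕ} (q : Fin (r + 1) → MvPolynomial (Fin m) ℤ) :
    cubic q = lin q (-1) := by
  unfold cubic lin
  rw [map_neg, map_one, sub_eq_add_neg]

theorem smooth_cub {m r : ℕ} (q : Fin (r + 1) → MvPolynomial (Fin m) ℤ) :
    Algebra.Smooth ℤ (Cub q) := by
  unfold Cub
  rw [cubic_eq]
  exact smooth_lin' q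

variable {T : EtMot}

theorem point (hT : IsEtBM T) {m r : ℕ} (q : Fin (r + 1) → MvPolynomial (Fin m) ℤ)
    (i n : ℤ) (hn : n < 0) :
    AddGroup.FG (T.H (Sp (Cub q)) i n) ↔
      AddGroup.FG (T.H (Sp (MvPolynomial (Fin m) ℤ ⧸ Ideal.span (Set.range q)))
        (i + 2 * r + 1) (n - r)) := by
  unfold Cub
  rw [cubic_eq]
  exact em_point hT q i n hn

theorem affine (hT : IsEtBM T) (R : Type) [CommRing R] (hR : Fg 0 R) :
    ∃ (m r : ℕ) (q : Fin (r + 1) → MvPolynomial (Fin m) ℤ), (∀ j, Simple (q j)) ∧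
      ∀ i n : ℤ, n < 0 → (AddGroup.FG (T.H (Sp (Cub q)) i n) ↔
        AddGroup.FG (T.H (Sp R) (i + 2 * r + 1) (n - r))) := by
  obtain ⟨m, r, q, hq, ⟨e⟩⟩ := shape_pos 0 R hR
  refine ⟨m, r, q, hq, fun i n hn => (point hT q i n hn).trans ?_⟩
  have hn2 : n - r < 0 := by omega
  obtain ⟨E⟩ := hT.iso (Sp R) (Sp (MvPolynomial (Fin m) ℤ ⧸ Ideal.span (Set.range q)))
    (i + 2 * r + 1) (n - r) (ft_sp0 hR) hn2
    (Scheme.Spec.mapIso (e.toCommRingCatIso.symm).op)
  exact ⟨fun h => fg_equiv' E.symm h, fun h => fg_equiv' E h⟩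

/-- Let `T` be étale motivic Borel-Moore homology of arithmetic schemes. Every affine arithmetic
scheme `Spec R` has a smooth affine cubic hypersurface `Spec (Cub q)` over `ℤ`, with `Simple`
polynomials `q_j`, such that finite generation of `H^i(Spec (Cub q), ℤ^c(n))` is equivalent to finite
generation of `H^(i+2r+1)(Spec R, ℤ^c(n-r))`, for all `i` and all `n < 0`. And finite generation of
the groups `H^i(X_et, ℤ^c(n))` for all `i` and all `n < -N`, with some `N` that depends on `X`, holds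
for all arithmetic schemes `X` if and only if it holds for these hypersurfaces. -/
theorem result (T : EtMot) (hT : IsEtBM T) :
    (∀ (R : Type) [CommRing R], Fg 0 R →
      ∃ (m r : ℕ) (q : Fin (r + 1) → MvPolynomial (Fin m) ℤ), (∀ j, Simple (q j)) ∧
        Algebra.Smooth ℤ (Cub q) ∧ ∀ i n : ℤ, n < 0 →
          (AddGroup.FG (T.H (Sp (Cub q)) i n) ↔
            AddGroup.FG (T.H (Sp R) (i + 2 * r + 1) (n - r)))) ∧
    ((∀ X : Scheme.{0}, FT 0 X → ∃ N : ℕ, ∀ i n : ℤ, n < -(N : ℤ) → AddGroup.FG (T.H X i n)) ↔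
      ∀ (m r : ℕ) (q : Fin (r + 1) → MvPolynomial (Fin m) ℤ), (∀ j, Simple (q j)) →
        ∃ N : ℕ, ∀ i n : ℤ, n < -(N : ℤ) → AddGroup.FG (T.H (Sp (Cub q)) i n)) := by
  have hZ : Fg 0 ℤ := ⟨RingHom.id ℤ, RingHom.FiniteType.id ℤ⟩
  refine ⟨fun R _ hR => ?_, ⟨fun h m r q _ =>
    h _ (ft_sp0 (fg_quot (fg_mv (fg_mv hZ _) _) _)), fun h => ?_⟩⟩
  · obtain ⟨m, r, q, hq, hE⟩ := affine hT R hR
    exact ⟨m, r, q, hq, smooth_cub q, hE⟩
  · refine W2helper75.TQ.piece_DEV 0 (fun X => EvFinGen T X) (nice_ev1 hT.iso hT.loc) ?_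
    intro R _ hR
    obtain ⟨m, r, q, hq, hE⟩ := affine hT R hR
    obtain ⟨N, hN⟩ := h m r q hq
    refine ⟨N + r, fun i n hn => ?_⟩
    push_cast at hn
    have h1 := (hE (i - 2 * r - 1) (n + r) (by omega)).1 (hN _ _ (by omega))
    rwa [show i - 2 * r - 1 + 2 * r + 1 = i by ring, show n + r - r = n by ring] at h1

end

end Pool.Agent.Results.MP_c1eb4d_ag.SmoothCubics
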